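import Pool.Agent.MP_e99f36_lc.H71.Defs

/-! Acyclic pairs of simplicial sets. -/

open CategoryTheory MonoidalCategory Simplicial

namespace Pool.Agent.MP_e99f36_lc.H88

open H71

/-- The quotient `B / S` is `E^*`-acyclic: every map `B → E n` that sends `S` to the base point is
homotopic to the constant map, through a homotopy that is constant on `S`. -/
def Acyclic (E : OmegaSpectrum) {B : SSet.{0}} (S : B.Subcomplex) : Prop :=
  ∀ (n : ℤ) (f : B ⟶ (E.E n).X), S.ι ≫ f = SSet.const (E.E n).pt →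
    ∃ h : B ⊗ Δ[1] ⟶ (E.E n).X, SSet.ι₀ ≫ h = f ∧ SSet.ι₁ ≫ h = SSet.const (E.E n).pt ∧
      S.ι ▷ Δ[1] ≫ h = SSet.const (E.E n).pt

end Pool.Agent.MP_e99f36_lc.H88
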