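import Pool.Agent.MP_e99f36_lc.H88.Pure
import Pool.Agent.MP_e99f36_lc.H88.Defs

/-! The localization whose cofibres have acyclic smash square. -/

open CategoryTheory MonoidalCategory Simplicial Opposite Set Cardinal MorphismProperty

namespace Pool.Agent.MP_e99f36_lc.H88

open H71

variable {Y Z B : SSet.{0}} {K : PKan}

theorem bx_univ (A : Set (Om Y)) : bx A (Set.univ : Set (Om Z)) = Set.univ :=
  eq_univ_of_forall fun _ => Or.inl trivial

theorem acy_sw {A C : Set (Om Z)} {L N : Set (Om Y)} (hA : Cl A) (hL : Cl L)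
    (h : Acy K (bx L A) (bx N C)) : Acy K (bx A L) (bx C N) := by
  have h1 := (acy_iff (swp (𝟙 Y) Z) (cl_bx hL hA)
    fun x _ => Or.inr ⟨pr x.2.2 x.2.1, rfl⟩).2 h
  rwa [show pre (swp (𝟙 Y) Z) (bx L A) = bx A L from Set.ext fun _ => or_comm,
    show pre (swp (𝟙 Y) Z) (bx N C) = bx C N from Set.ext fun _ => or_comm] at h1

instance (j : B ⟶ Y) [Mono j] (Z : SSet.{0}) : Mono (Z ◁ j) :=
  mono_of_inj _ fun m _ _ h => Prod.ext (congrArg Prod.fst h :)
    (inj_of_mono j m (congrArg Prod.snd h :))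

instance (j : B ⟶ Y) [Mono j] (Z : SSet.{0}) : Mono (j ▷ Z) :=
  mono_of_inj _ fun m _ _ h => Prod.ext (inj_of_mono j m (congrArg Prod.fst h :))
    (congrArg Prod.snd h :)

instance (X Y Z : SSet.{0}) : Mono (xch X Y Z) :=
  mono_of_inj _ fun _ _ _ h => Prod.ext (congrArg (fun x => x.2.1) h :)
    (Prod.ext (congrArg (fun x => x.1) h :) (congrArg (fun x => x.2.2) h :))

variable (E : OmegaSpectrum)

/-- The product with every pure subpair of an acyclic pair is acyclic. -/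
def Perp (A : Set (Om Z)) : Prop :=
  ∀ (Y : SSet.{0}) (L N : Set (Om Y)), Cl L → (∀ n, Acy (E.E n) L Set.univ) → PuP E L N →
    ∀ n, Acy (E.E n) (bx A L) (bx A N)

/-- The double orthogonal of the pure subpairs. -/
def JR (U V : Set (Om Y)) : Prop :=
  ∀ (Z : SSet.{0}) (A : Set (Om Z)), Cl A → Perp E A → ∀ n, Acy (E.E n) (bx A U) (bx A V)

theorem perp_sub {L N : Set (Om Y)} (hL : Cl L) (h : ∀ n, Acy (E.E n) L Set.univ)
    (hN : PuP E L N) : Perp E (pre (toSub N hN.1).ι L) := by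
  intro Z L' N' hL' h' hN' n
  have h1 := (acy_iff ((toSub N hN.1).ι ▷ Z) (cl_bx hL hL') fun x hx => hx.symm.imp id
    fun h => ⟨pr ⟨x.2.1, h.1.resolve_left id⟩ x.2.2, rfl⟩).2 (smash E hL hL' h h' hN hN' n)
  rwa [show pre ((toSub N hN.1).ι ▷ Z) (bx N ∅ ∩ bx ∅ N' ∪ bx L L') =
    bx (pre (toSub N hN.1).ι L) N' from Set.ext fun x => ⟨fun h => h.elim
      (fun h => Or.inl (h.2.resolve_right id)) fun h => h.imp (fun h => hN'.2.1 h) id,
      fun h => h.elim (fun h => Or.inl ⟨Or.inr x.2.1.2, Or.inl h⟩) fun h => Or.inr (Or.inr h)⟩]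
    at h1

variable {E}

theorem JR.perp {A : Set (Om Z)} (hA : Cl A) (h : JR E A Set.univ) : Perp E A := by
  intro Y L N hL ha hN n
  have h1 := acy_sw hA (cl_pre _ hL) (h _ _ (cl_pre _ hL) (perp_sub E hL ha hN) n)
  rw [show bx Set.univ (pre (toSub N hN.1).ι L) = Set.univ from
    eq_univ_of_forall fun _ => Or.inr trivial] at h1
  exact acy_sw hA hL (acy_swp hL hN.1 hA h1)

theorem jr_step {L N N' : Set (Om Y)} (hL : Cl L) (h : ∀ n, Acy (E.E n) L Set.univ)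
    (hN : PuP E L N) (hN' : PuP E L N') (hNN : N ⊆ N') : JR E N N' := fun _ _ hA hp =>
  acy_two' E (cl_bx hA hL) (cl_bx hA hN.1) (cl_bx hA hN'.1) (bx_mono subset_rfl hN.2.1)
    (bx_mono subset_rfl hNN) (hp _ _ _ hL h hN') (hp _ _ _ hL h hN)

theorem JR.pre {U V : Set (Om Y)} (h : JR E U V) (j : B ⟶ Y) [Mono j] (hU : Cl U)
    (hV : V ⊆ U ∪ rng j) : JR E (pre j U) (pre j V) := fun Z _ hA hp n =>
  (acy_iff (Z ◁ j) (cl_bx hA hU) fun x hx => hx.elim (fun h => (hV h).imp Or.inl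
    fun ⟨b, hb⟩ => ⟨pr x.2.1 b, Prod.ext rfl hb⟩) fun h => Or.inl (Or.inr h)).2 (h Z _ hA hp n)

theorem JR.prod {A : Set (Om Y)} (hA : Cl A) (h : JR E A Set.univ) :
    JR E (prodSet A) Set.univ := by
  intro Z A0 hA0 hp n
  have h1 := (acy_iff (xch Z Δ[1] Y) (cl_prodSet (cl_bx hA0 hA))
    fun x _ => Or.inr ⟨pr x.2.2.1 (pr x.2.1 x.2.2.2), rfl⟩).2
    (acy_prod E (cl_bx hA0 hA) (fun n => bx_univ (Z := Y) A0 ▸ h Z A0 hA0 hp n) n)
  rw [bx_univ]
  rwa [show H88.pre (xch Z Δ[1] Y) (prodSet (bx A0 A)) = bx A0 (prodSet A) from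
    Set.ext fun _ => or_right_comm] at h1

variable (E)

/-- `W` has the extension property for the countable pairs of the double orthogonal. -/
def ExtJ (W : PKan) : Prop :=
  ∀ (B : SOn ℕ) (A : Set (Om B.toS)), Cl A → JR E A Set.univ → Ext0 ∅ W A Set.univ

variable {E}

theorem ExtJ.small {W : PKan} (hW : ExtJ E W) {L M : Set (Om Y)}
    (h1 : Cl L) (hM1 : Cl M) (hM3 : #M ≤ ℵ₀) (hac : JR E L (L ∪ M)) : Ext0 ∅ W L (L ∪ M) := by
  intro g h4
  obtain ⟨B, j, hj, rfl⟩ := exists_model hM1 (T := ℕ) (by rwa [mk_nat])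
  obtain ⟨g', hg1, hg2⟩ := hW B _ (cl_pre j h1) (by
    have := hac.pre j h1 subset_rfl
    rwa [show H88.pre j (L ∪ rng j) = Set.univ from
      eq_univ_of_forall fun x => Or.inr ⟨x.2, rfl⟩] at this) (pb j g)
    (pm_pb j h4 (fun x hx => hx) (fun _ h => h.elim))
  have hag : Agree (L ∩ rng j) g (pf j g') := by
    rintro x ⟨hx, hx'⟩
    revert hx
    refine rng_ind j (P := fun x => x ∈ L → g x = pf j g' x) (fun m b hx => ?_) x hx'
    rw [pf_apply]
    exact (hg2 ⟨m, b⟩ hx).symm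
  exact ⟨glue L g (pf j g'), h4.glue h1 hM1 (pm_pf j hg1 fun _ _ h => h) hag, glue_left L _ _⟩

theorem ExtJ.extAll {W : PKan} (hW : ExtJ E W) : ExtAll E W := by
  intro Y A hA hac f hf
  obtain ⟨L, g, ⟨h1, h2⟩, -, h5, hmax⟩ := zorn_pf (V := fun x : Om Y =>
    (Δ[0] : SSet.{0}).obj x.1 → W.X.obj x.1) (fun L g => PuP E A L ∧ PM ∅ L g) A f
    ⟨pup_base E hA, hf⟩ fun ι _ L g hg hd f h1 h2 => ⟨pup_dir E L (fun i => (hg i).1) hd,
      pm_iUnion (fun i => (hg i).1.1) (fun i => (hg i).2) h1 h2⟩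
  refine ⟨g, h2.mono fun y _ => ?_, h5⟩
  obtain ⟨M, hM, hy, hc, hp⟩ := pup_hull E hA h1 y
  obtain ⟨g', hg1, hg2⟩ := hW.small h1.1 hM hc (jr_step hA hac h1 hp subset_union_left) g h2
  exact hmax _ g' ⟨hp, hg1⟩ subset_union_left hg2 (Or.inr hy)

theorem ExtJ.prod {W : PKan} (hW : ExtJ E W) {B : SOn ℕ} {A : Set (Om B.toS)} (hA : Cl A)
    (h : JR E A Set.univ) : Ext0 ∅ W (prodSet A) Set.univ := by
  have : ∀ m, Countable (((Δ[1] : SSet.{0}) ⊗ B.toS).obj m) := fun m =>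
    inferInstanceAs (Countable ((Δ[1] : SSet.{0}).obj m × B.obj m))
  have := hW.small (cl_prodSet hA) cl_univ mk_le_aleph0 (by rw [union_univ]; exact h.prod hA)
  rwa [union_univ] at this

variable (E)

/-- The index set of the generators. -/
abbrev GI : Type :=
  (Σ B : SOn ℕ, {A : Set (Om B.toS) // Cl A ∧ JR E A Set.univ}) ⊕ Σ n : ℕ, Fin (n + 2)

/-- The targets of the generators. -/
noncomputable def tg : GI E → SSet.{0} := Sum.elim (fun p => p.1.toS) fun p => Δ[p.1 + 1]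

/-- The sources of the generators. -/
noncomputable def sb : ∀ p, (tg E p).Subcomplex :=
  Sum.rec (fun p => toSub p.2.1 p.2.2.1) fun p => SSet.horn (p.1 + 1) p.2

/-- The generators. -/
def II : MorphismProperty SSet.{0} := ofHoms fun p => (sb E p).ι

open SSet.modelCategoryQuillen in
theorem exists_fib (X : PKan) :
    ∃ (W : PKan) (i : X ⟶ W), Mono i.1 ∧ (II E).rlp.llp i.1 ∧ ExtJ E W := by
  have : HasSmallObjectArgument.{0} (II E) := hasSOA _
  obtain ⟨Z, i, p, -, hi, hp⟩ := exists_fact (II E) (Limits.terminal.from X.X)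
  obtain rfl : p = Limits.terminal.from Z := Subsingleton.elim _ _
  have hK : SSet.KanComplex Z := (fibration_iff _).2 fun _ _ _ h => by
    simp only [J, iSup_iff] at h
    obtain ⟨n, ⟨k⟩⟩ := h
    exact hp _ (ofHoms.mk (f := fun p => (sb E p).ι) (Sum.inr ⟨n, k⟩))
  have hm : Mono i := llp_le_mono (II E) (by
    rintro _ _ _ ⟨q⟩
    exact monomorphisms.infer_property _) _ hi
  exact ⟨⟨Z, i.app _ X.pt, hK⟩, ⟨i, rfl⟩, hm, hi,
    fun B A hA hac => (lift_iff hA).1 (hp _ (ofHoms.mk (f := fun p => (sb E p).ι)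
      (Sum.inl ⟨B, A, hA, hac⟩)))⟩

variable {E}

theorem jr_cell (i : B ⟶ Y) [Mono i] (hi : (II E).rlp.llp i) : JR E (rng i) Set.univ := by
  intro Z A hA hp n
  have := (E.E n).kan
  have : HasLiftingProperty i ((MonoidalClosed.pre (toSub _ (cl_prodSet hA)).ι).app (E.E n).X) :=
    hi _ (by
      rintro _ _ _ ⟨q | q⟩
      · exact lift_of_acy E hA q.2.2.1 (fun n => bx_univ A ▸ q.2.2.2 Z A hA hp n) n
      · exact inferInstanceAs (HasLiftingProperty (SSet.horn (q.1 + 1) q.2).ι _))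
  rw [bx_univ]
  exact acy_of_lift hA (cl_rng i) (lift_rng i _)

open SSet.modelCategoryQuillen in
theorem bij_cell {A C T : PKan} (i : A ⟶ C) [Mono i.1] (hi : (II E).rlp.llp i.1)
    (hT : ExtJ E T) :
    Function.Bijective (fun f : toHo.obj C ⟶ toHo.obj T => toHo.map i ≫ f) := by
  have := T.kan
  have : HasLiftingProperty i.1 (Limits.terminal.from T.X) := hi _ (by
    rintro _ _ _ ⟨q | q⟩
    · exact (lift_iff q.2.2.1).2 (hT _ _ q.2.2.1 q.2.2.2)
    · exact SSet.anodyneExtensions.horn_ι q.2 _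
        ((HomotopicalAlgebra.fibration_iff _).1 inferInstance))
  have : HasLiftingProperty i.1 ((MonoidalClosed.pre (SSet.boundary 1).ι).app T.X) := hi _ (by
    rintro _ _ _ ⟨q | q⟩
    · exact (lift_pre_iff q.2.2.1 _).2 (hT.prod q.2.2.1 q.2.2.2)
    · exact inferInstanceAs (HasLiftingProperty (SSet.horn (q.1 + 1) q.2).ι _))
  constructor
  · intro f g hfg
    obtain ⟨f, rfl⟩ := toHo.map_surjective f
    obtain ⟨g, rfl⟩ := toHo.map_surjective g
    have h1 : Homotopic (i ≫ f) (i ≫ g) := (toHo_eq_iff _ _).1 (by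
      rw [Functor.map_comp, Functor.map_comp]; exact hfg)
    obtain ⟨H, hH⟩ := (homotopic_iff _ _).1 h1
    have h2 : Edge (P0 C) (rng i.1) (pf i.1 H) (cell0 f.1) (cell0 g.1) :=
      edge_pf i.1 hH (P0_back i)
    obtain ⟨H', h3, h4⟩ := edge_ext (cl_rng _) ((lift_pre_iff (cl_rng _) T).1 (lift_rng i.1 _))
      (natl_cell0 _ _) (natl_cell0 _ _) (h2.weaken (empty_subset _))
    exact (toHo_eq_iff _ _).2 ((homotopic_iff _ _).2
      ⟨H', ⟨h3.1.1, (h4.mono (P0_sub_rng i)).trans h2.1.2⟩, h3.2⟩)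
  · intro f
    obtain ⟨f, rfl⟩ := toHo.map_surjective f
    have sq : CommSq f.1 i.1 (Limits.terminal.from T.X) (Limits.terminal.from C.X) := ⟨by simp⟩
    refine ⟨toHo.map (⟨sq.lift, (congrArg _ i.2.symm).trans
      ((sapp sq.fac_left _ _).trans f.2)⟩ : C ⟶ T), ?_⟩
    dsimp only
    rw [← Functor.map_comp]
    exact congrArg _ (Subtype.ext sq.fac_left)

theorem acyclic_of {S : B.Subcomplex} (h : ∀ n, Acy (E.E n) (os S) Set.univ) : Acyclic E S := by
  intro n f hf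
  obtain ⟨H, hH⟩ := h n (cell0 f) ⟨natl_cell0 _ _, fun x hx => funext fun _ =>
    sapp hf x.1 ⟨x.2, hx⟩⟩
  obtain ⟨h1, h2, h3⟩ := edge_iff.1 hH
  exact ⟨homk H h1.1, sext fun m y => h2 ⟨m, y⟩ trivial, sext fun m y => h3 ⟨m, y⟩ trivial,
    sext fun m z => congrFun (h1.2 ⟨m, z.1.1⟩ z.1.2) z.2⟩

theorem acy_of {S : B.Subcomplex} (h : Acyclic E S) (n : ℤ) : Acy (E.E n) (os S) Set.univ := by
  intro g hg
  obtain ⟨H, h0, h1, h2⟩ := h n (hom0 g hg.1) (sext fun m x => congrFun (hg.2 ⟨m, x.1⟩ x.2) _)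
  exact ⟨cellk H, edge_iff.2 ⟨⟨natl_cellk _ _, fun x hx => funext fun t =>
    sapp h2 x.1 (pr (A := S) ⟨x.2, hx⟩ t)⟩, fun x _ => sapp h0 x.1 x.2,
    fun x _ => sapp h1 x.1 x.2⟩⟩

theorem approx (E : OmegaSpectrum) : ∃ (L : Ho ⥤ Ho) (η : 𝟭 Ho ⟶ L)
    (i : ∀ X : Ho, X.as ⟶ (L.obj X).as),
    (∀ X, toHo.map (i X) = η.app X ∧ Mono (i X).1 ∧ IsCohLocal E (L.obj X)) ∧
    (∀ X Y, (Function.Bijective fun f : L.obj X ⟶ L.obj Y => η.app X ≫ f) ∧
      Acyclic E ((SSet.Subcomplex.range (i X).1).unionProd (SSet.Subcomplex.range (i Y).1))) ∧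
    ((∀ (B : SSet.{0}) (S : B.Subcomplex), Acyclic E (S.unionProd S) → Acyclic E S) →
      ∀ X, IsCohEquiv E (η.app X)) := by
  have hQ : ∀ W : Ho, ExtJ E W.as → ∀ ⦃Y Y' : Ho⦄ (g : Y ⟶ Y'),
      (∃ i : Y.as ⟶ Y'.as, toHo.map i = g ∧ Mono i.1 ∧ (II E).rlp.llp i.1) →
      Function.Bijective fun f : Y' ⟶ W => g ≫ f := by
    rintro W hW Y Y' _ ⟨i, rfl, _, hi⟩
    exact bij_cell i hi hW
  obtain ⟨L, η, h⟩ := exists_localization (C := Ho)
    (fun Y Y' g => ∃ i : Y.as ⟶ Y'.as, toHo.map i = g ∧ Mono i.1 ∧ (II E).rlp.llp i.1)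
    (fun W => ExtJ E W.as) hQ fun X => by
      obtain ⟨W, i, h1, h2, h3⟩ := exists_fib E X.as
      exact ⟨toHo.obj W, toHo.map i, ⟨i, rfl, h1, h2⟩, h3⟩
  choose i h1 h2 h3 using fun X => (h X).1
  have key : ∀ X Y, Acyclic E ((SSet.Subcomplex.range (i X).1).unionProd
      (SSet.Subcomplex.range (i Y).1)) := fun X Y => acyclic_of fun n => by
    have := jr_cell (i Y).1 (h3 Y) _ _ (cl_rng _) ((jr_cell (i X).1 (h3 X)).perp (cl_rng _)) n
    rwa [bx_univ, show bx (rng (i X).1) (rng (i Y).1) = os ((SSet.Subcomplex.range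
      (i X).1).unionProd (SSet.Subcomplex.range (i Y).1)) from Set.ext fun x =>
        (SSet.Subcomplex.mem_unionProd_iff (SSet.Subcomplex.range (i X).1)
          (SSet.Subcomplex.range (i Y).1) x.2).symm] at this
  refine ⟨L, η, i, fun X => ⟨h1 X, h2 X, local_of_extAll E (h X).2.extAll⟩,
    fun X Y => ⟨hQ _ (h Y).2 _ (h X).1, key X Y⟩, fun hr X n => ?_⟩
  rw [← h1]
  exact bij_of_acy E (i X) (acy_of (hr _ _ (key X X))) (extAll_E E n)

end Pool.Agent.MP_e99f36_lc.H88
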