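import Pool.Agent.MP_e99f36_lc.H71.SC

/-! Excision, products of pairs, and acyclicity of products. -/

open CategoryTheory MonoidalCategory Simplicial Opposite Set Cardinal

namespace Pool.Agent.MP_e99f36_lc.H88

open H71

variable {Y Z B : SSet.{0}} {K : PKan}

/-- Preimage of a set of simplices. -/
def pre (j : B ⟶ Y) (U : Set (Om Y)) : Set (Om B) := {x | (⟨x.1, j.app x.1 x.2⟩ : Om Y) ∈ U}

theorem cl_pre (j : B ⟶ Y) {U : Set (Om Y)} (hU : Cl U) : Cl (pre j U) := fun x hx m φ => by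
  change (⟨m, j.app m (B.map φ x.2)⟩ : Om Y) ∈ U
  rw [NatTrans.naturality_apply j φ x.2]
  exact hU _ hx m φ

theorem acy_iff (j : B ⟶ Y) [Mono j] {U V : Set (Om Y)} (hU : Cl U)
    (h : V ⊆ U ∪ rng j) : Acy K (pre j U) (pre j V) ↔ Acy K U V := by
  have hpf : ∀ {k} (f : Cell B K k), PM (pre j U) (pre j V) f → PM U (U ∪ V) (pf j f) := by
    intro k f hf
    have h0 : Agree U (pf j f) triv := fun x hx => by
      by_cases hr : x ∈ rng j
      · revert hx
        exact rng_ind j (P := fun x => x ∈ U → pf j f x = triv x) (fun m b hx => by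
          rw [pf_apply]; exact hf.2 ⟨m, b⟩ hx) x hr
      · exact dif_neg hr
    refine ⟨fun x hx => ?_, h0⟩
    by_cases hU' : x ∈ U
    · exact (natl_triv U).congr hU h0 x hU'
    have hV' := hx.resolve_left hU'
    revert hV'
    refine rng_ind j (P := fun x => x ∈ V → ∀ m' (φ : x.1 ⟶ m') t,
      pf j f ⟨m', Y.map φ x.2⟩ (Δ[k].map φ t) = K.X.map φ (pf j f x t)) (fun m b hx m' φ t => ?_) x
      ((h (hx.resolve_left hU')).resolve_left hU')
    dsimp only
    rw [← NatTrans.naturality_apply j φ b, pf_apply, pf_apply]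
    exact hf.1 ⟨m, b⟩ hx m' φ t
  constructor
  · intro ha g hg
    obtain ⟨H, hH⟩ := ha (pb j g) (pm_pb j hg (fun _ h => h) fun _ h => h)
    obtain ⟨h1, h2, h3⟩ := edge_iff.1 hH
    have h4 := hpf H h1
    refine ⟨pf j H, edge_iff.2 ⟨h4.mono subset_union_right, fun x hx => ?_, fun x hx => ?_⟩⟩
    · rcases h hx with h5 | h5
      · rw [h4.2 x h5, hg.2 x h5]
        rfl
      · revert hx
        exact rng_ind j (P := fun x => x ∈ V → pf j H x (SSet.stdSimplex.const 1 0 x.1) =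
          g x default) (fun m b hx => by rw [pf_apply]; exact h2 ⟨m, b⟩ hx) x h5
    · rcases h hx with h5 | h5
      · rw [h4.2 x h5]
        rfl
      · revert hx
        exact rng_ind j (P := fun x => x ∈ V → pf j H x (SSet.stdSimplex.const 1 1 x.1) =
          (triv : Cell Y K 0) x default) (fun m b hx => by rw [pf_apply]; exact h3 ⟨m, b⟩ hx) x h5
  · intro ha g hg
    obtain ⟨H, hH⟩ := ha (pf j g) ((hpf g hg).mono subset_union_right)
    exact ⟨pb j H, (edge_pb j hH (fun _ h => h) fun _ h => h).congr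
      (fun x _ => pf_apply j g x.1 x.2) fun _ _ => rfl⟩

theorem ext0_retr (j : B ⟶ Y) (k : Y ⟶ B) (hjk : ∀ m y, j.app m (k.app m y) = y)
    {U : Set (Om Y)} (h : Ext0 ∅ K (pre j U) univ) : Ext0 ∅ K U univ := by
  intro f hf
  obtain ⟨g, h1, h2⟩ := h (pb j f) (pm_pb j hf (fun _ h => h) fun _ h => h.elim)
  refine ⟨pb k g, pm_pb k h1 (fun _ h => h) fun _ h => h.elim, fun x hx => ?_⟩
  have e : (⟨x.1, j.app x.1 (k.app x.1 x.2)⟩ : Om Y) = x := by rw [hjk]
  refine (h2 ⟨x.1, k.app x.1 x.2⟩ (show _ ∈ U from e.symm ▸ hx)).trans ?_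
  change f ⟨x.1, j.app x.1 (k.app x.1 x.2)⟩ = f x
  rw [hjk]

variable (E : OmegaSpectrum)

theorem acy_two' {A U V : Set (Om Y)} (hA : Cl A) (hU : Cl U) (hV : Cl V) (hAU : A ⊆ U)
    (hUV : U ⊆ V) (h1 : ∀ n, Acy (E.E n) A V) (h2 : ∀ n, Acy (E.E n) A U) (n : ℤ) :
    Acy (E.E n) U V := by
  obtain ⟨m, rfl⟩ : ∃ m, n = m + 1 := ⟨n - 1, by ring⟩
  intro g hg
  obtain ⟨H, hH⟩ := h1 _ g (hg.weaken hAU)
  obtain ⟨H', h3, h4⟩ := lemC hA hU hV hUV
    (lext_of_ext E hA hU hV hUV (n := m) fun f hf => by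
      obtain ⟨G, hG⟩ := h2 m f hf
      obtain ⟨_, f', -, -, h3, h4⟩ := hep1 hA hU hV hUV (pm_triv _) hG
      exact ⟨f', h3, h4⟩) hH ((edge_triv _).congr hg.2.symm (Agree.refl _ _))
  exact ⟨H', ⟨h3.1.1, h4⟩, h3.2⟩

/-- The simplices of a subcomplex. -/
def os (S : Y.Subcomplex) : Set (Om Y) := {x | x.2 ∈ S.obj x.1}

theorem cl_os (S : Y.Subcomplex) : Cl (os S) := fun _ hx _ φ => S.map φ hx

/-- The boundary of a product of pairs. -/
def bx (A : Set (Om Y)) (A' : Set (Om Z)) : Set (Om (Y ⊗ Z)) :=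
  {x | (⟨x.1, x.2.2⟩ : Om Z) ∈ A' ∨ (⟨x.1, x.2.1⟩ : Om Y) ∈ A}

theorem cl_bx {A : Set (Om Y)} {A' : Set (Om Z)} (hA : Cl A) (hA' : Cl A') : Cl (bx A A') :=
  fun x hx m φ => hx.imp (fun h => hA' ⟨x.1, x.2.2⟩ h m φ) fun h => hA ⟨x.1, x.2.1⟩ h m φ

theorem bx_mono {A A1 : Set (Om Y)} {A' A1' : Set (Om Z)} (h : A ⊆ A1) (h' : A' ⊆ A1') :
    bx A A' ⊆ bx A1 A1' := fun _ hx => hx.imp (fun a => h' a) fun a => h a

theorem toSub_bx {A : Set (Om Y)} {A' : Set (Om Z)} (hA : Cl A) (hA' : Cl A') :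
    toSub (bx A A') (cl_bx hA hA') = (toSub A hA).unionProd (toSub A' hA') := by
  ext m x
  exact (SSet.Subcomplex.mem_unionProd_iff (toSub A hA) (toSub A' hA') x).symm

theorem lift_bx {A : Set (Om Y)} {A' : Set (Om Z)} (hA : Cl A) (hA' : Cl A') (K : PKan) :
    HasLiftingProperty (toSub A' hA').ι ((MonoidalClosed.pre (toSub A hA).ι).app K.X) ↔
      Ext0 ∅ K (bx A A') univ := by
  rw [← lift_iff (cl_bx hA hA'), toSub_bx hA hA']
  exact (MonoidalClosed.internalHomAdjunction₂.hasLiftingProperty_iff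
    (SSet.Subcomplex.unionProd.pushoutObjObj (toSub A hA) (toSub A' hA'))
    (Functor.PullbackObjObj.ofIsTerminal MonoidalClosed.internalHom (toSub A hA).ι
      (Limits.terminal.from K.X) Limits.terminalIsTerminal)).symm

/-- Exchange of the first two factors. -/
def xch (X Y Z : SSet.{0}) : X ⊗ (Y ⊗ Z) ⟶ Y ⊗ (X ⊗ Z) where
  app _ := ↾fun x => pr x.2.1 (pr x.1 x.2.2)
  naturality _ _ _ := rfl

theorem acy_of_lift {A : Set (Om Y)} {A' : Set (Om Z)} (hA : Cl A) (hA' : Cl A')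
    (h : HasLiftingProperty (toSub A' hA').ι
      ((MonoidalClosed.pre (toSub _ (cl_prodSet hA)).ι).app K.X)) : Acy K (bx A A') univ := by
  refine acy_of_ext (cl_bx hA hA') (ext0_retr (α_ _ _ _).hom (α_ _ _ _).inv (fun _ _ => rfl) ?_)
  have e : pre (α_ (Δ[1] : SSet.{0}) Y Z).hom (prodSet (bx A A')) = bx (prodSet A) A' :=
    Set.ext fun x => or_assoc
  rw [e]
  exact (lift_bx _ hA' K).1 h

theorem lift_of_acy {A : Set (Om Y)} {A' : Set (Om Z)} (hA : Cl A) (hA' : Cl A')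
    (h : ∀ n, Acy (E.E n) (bx A A') univ) (n : ℤ) : HasLiftingProperty (toSub A' hA').ι
      ((MonoidalClosed.pre (toSub _ (cl_prodSet hA)).ι).app (E.E n).X) := by
  refine (lift_bx _ hA' _).2 (ext0_retr (α_ _ _ _).inv (α_ _ _ _).hom (fun _ _ => rfl) ?_)
  have e : pre (α_ (Δ[1] : SSet.{0}) Y Z).inv (bx (prodSet A) A') = prodSet (bx A A') :=
    Set.ext fun x => or_assoc.symm
  rw [e]
  exact extAll_E E n _ _ (cl_prodSet (cl_bx hA hA')) (acy_prod E (cl_bx hA hA') h)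

theorem acy_horn {A : Set (Om Y)} (hA : Cl A) (m : ℕ) (i : Fin (m + 2)) :
    Acy K (bx A (os (SSet.horn (m + 1) i))) univ :=
  have := K.kan
  acy_of_lift hA (cl_os _) (inferInstanceAs (HasLiftingProperty (SSet.horn (m + 1) i).ι _))

theorem mono_of_inj (j : B ⟶ Y) (h : ∀ m, Function.Injective (j.app m)) : Mono j :=
  have : ∀ m, Mono (j.app m) := fun m => (mono_iff_injective _).2 (h m)
  NatTrans.mono_of_mono_app j

theorem inj_of_mono (j : B ⟶ Y) [Mono j] (m : SimplexCategoryᵒᵖ) : Function.Injective (j.app m) :=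
  (mono_iff_injective _).1 inferInstance

theorem acy_bdry {A : Set (Om Y)} (hA : Cl A) (h : ∀ n, Acy (E.E n) A univ) (m : ℕ) :
    ∀ n, Acy (E.E n) (bx A (os (SSet.boundary m))) univ := by
  induction m with
  | zero =>
    intro n
    have := mono_of_inj (CartesianMonoidalCategory.fst Y Δ[0]) fun m a b h =>
      Prod.ext h (Subsingleton.elim _ _)
    have h1 := (acy_iff (CartesianMonoidalCategory.fst Y Δ[0]) hA (V := Set.univ)
      (fun x _ => Or.inr ⟨pr x.2 default, rfl⟩)).2 (h n)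
    have e : bx A (os (SSet.boundary 0)) = pre (CartesianMonoidalCategory.fst Y Δ[0]) A := by
      refine Set.ext fun ⟨⟨⟨m⟩⟩, y, t⟩ => or_iff_right fun h => ?_
      obtain ⟨j, hj⟩ := (SSet.mem_boundary_iff_notMem_range t).1 h
      exact hj ⟨0, Subsingleton.elim (α := Fin 1) _ _⟩
    rw [e]
    exact h1
  | succ m ih =>
    have hle : os (SSet.horn (m + 1) 0) ⊆ os (SSet.boundary (m + 1)) :=
      fun ⟨⟨⟨_⟩⟩, t⟩ hx => (SSet.mem_boundary_iff_notMem_range t).2
        (((SSet.mem_horn_iff_notMem_range t 0).1 hx).imp fun _ h => h.2)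
    refine acy_two' E (cl_bx hA (cl_os _)) (cl_bx hA (cl_os _)) cl_univ (bx_mono subset_rfl hle)
      (subset_univ _) (fun n => acy_horn hA m 0) fun n => ?_
    have := mono_of_inj (Y ◁ SSet.stdSimplex.δ (n := m) 0) fun k a b h =>
      Prod.ext (congrArg Prod.fst h :) (inj_of_mono (SSet.stdSimplex.δ (n := m) 0) k
        (congrArg Prod.snd h :))
    refine (acy_iff (Y ◁ SSet.stdSimplex.δ (n := m) 0) (cl_bx hA (cl_os _)) ?_).1 ?_
    · rintro ⟨⟨⟨k⟩⟩, y, t⟩ (h | h)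
      · obtain ⟨j, hj⟩ := (SSet.mem_boundary_iff_notMem_range t).1 h
        by_cases hj0 : j = 0
        · subst hj0
          have h1 : t ∈ (SSet.Subcomplex.range (SSet.stdSimplex.δ (n := m) 0)).obj _ := by
            rw [SSet.stdSimplex.range_δ, SSet.stdSimplex.mem_face_iff]
            intro i
            simpa using fun h => hj ⟨i, h⟩
          obtain ⟨s, rfl⟩ := h1
          exact Or.inr ⟨pr y s, rfl⟩
        · exact Or.inl (Or.inl ((SSet.mem_horn_iff_notMem_range t 0).2 ⟨j, hj0, hj⟩))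
      · exact Or.inl (Or.inr h)
    · have e1 : pre (Y ◁ SSet.stdSimplex.δ (n := m) 0) (bx A (os (SSet.horn (m + 1) 0))) =
          bx A (os (SSet.boundary m)) := by
        refine Set.ext fun ⟨⟨⟨k⟩⟩, y, t⟩ => or_congr_left ?_
        refine (SSet.mem_horn_iff_notMem_range _ 0).trans (Iff.trans ?_
          (SSet.mem_boundary_iff_notMem_range t).symm)
        constructor
        · rintro ⟨j, hj0, hj⟩
          obtain ⟨j, rfl⟩ := Fin.exists_succ_eq.2 hj0
          exact ⟨j, fun ⟨i, hi⟩ => hj ⟨i, congrArg Fin.succ hi⟩⟩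
        · rintro ⟨j, hj⟩
          exact ⟨j.succ, j.succ_ne_zero, fun ⟨i, hi⟩ => hj ⟨i, Fin.succ_injective _ hi⟩⟩
      have e2 : pre (Y ◁ SSet.stdSimplex.δ (n := m) 0) (bx A (os (SSet.boundary (m + 1)))) =
          Set.univ := by
        refine eq_univ_of_forall fun ⟨⟨⟨k⟩⟩, y, t⟩ => Or.inl ?_
        exact (SSet.mem_boundary_iff_notMem_range _).2 ⟨0, fun ⟨i, hi⟩ => Fin.succ_ne_zero _ hi⟩
      rw [e1, e2]
      exact ih n

open SSet.modelCategoryQuillen in
theorem prodA {A : Set (Om Y)} {A' : Set (Om Z)} (hA : Cl A) (hA' : Cl A')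
    (h : ∀ n, Acy (E.E n) A univ) (n : ℤ) : Acy (E.E n) (bx A A') univ := by
  have h1 : (MorphismProperty.monomorphisms SSet.{0}).rlp
      ((MonoidalClosed.pre (toSub _ (cl_prodSet hA)).ι).app (E.E n).X) := by
    rw [SSet.rlp_monomorphisms]
    rintro _ _ _ ⟨m⟩
    exact lift_of_acy E hA (cl_os _) (acy_bdry E hA h m) n
  exact acy_of_lift hA hA' (h1 _ (inferInstanceAs (Mono _)))

end Pool.Agent.MP_e99f36_lc.H88
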