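import Pool.Agent.MP_e99f36_lc.H88.Prod

/-! Purity with parameters, and the smash product of two pure subcomplexes. -/

open CategoryTheory MonoidalCategory Simplicial Opposite Set Cardinal

namespace Pool.Agent.MP_e99f36_lc.H88

open H71

variable {Y Z P : SSet.{0}}

theorem pu_hull {X0 : Set (Om Y)} {ι : Type} {E : ι → PKan} (hX : Cl X0) {s t W : Set (Om Y)}
    (h : Pu X0 E s t) (hW : Cl W) (hWt : W ⊆ t)
    (hreal : ∀ (n : ℕ) (d : Fin n → SimplexCategoryᵒᵖ) (u : ∀ j, Y.obj (d j)),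
      (∀ j, (⟨_, u j⟩ : Om Y) ∈ t) → ∃ u' : ∀ j, Y.obj (d j),
        (∀ j, (⟨_, u' j⟩ : Om Y) ∈ s ∪ W) ∧ (∀ j, (⟨_, u j⟩ : Om Y) ∈ W → u' j = u j) ∧
        (∀ j, (⟨_, u j⟩ : Om Y) ∈ s → (⟨_, u' j⟩ : Om Y) ∈ s) ∧
        (∀ j, (⟨_, u j⟩ : Om Y) ∈ X0 → (⟨_, u' j⟩ : Om Y) ∈ X0) ∧
        ∀ j l m (φ : d j ⟶ m) (ψ : d l ⟶ m), Y.map φ (u j) = Y.map ψ (u l) →
          Y.map φ (u' j) = Y.map ψ (u' l)) : Pu X0 E (s ∪ W) t := by
  classical
  have hN : Cl (s ∪ W) := h.1.union hW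
  have hNt : s ∪ W ⊆ t := union_subset h.2.2.1 hWt
  refine ⟨hN, h.2.1, hNt, fun F hF hFt => ?_⟩
  obtain ⟨s1, hs1, e1⟩ := id hF
  obtain ⟨s2, hs2, e2⟩ := hF.inter hN
  obtain ⟨s3, hs3, e3⟩ := hF.inter hX
  have hfin : (s1 ∪ s2 ∪ s3).Finite := (hs1.union hs2).union hs3
  obtain ⟨n, x, hx⟩ := hfin.fin_param
  have hxr : range x = s1 ∪ s2 ∪ s3 := hx.2
  have hsF : s1 ∪ s2 ∪ s3 ⊆ F := union_subset (union_subset (e1 ▸ subset_gen s1)
    ((subset_gen s2).trans (e2 ▸ inter_subset_left))) ((subset_gen s3).trans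
      (e3 ▸ inter_subset_left))
  have hxF : ∀ j, x j ∈ F := fun j => hsF (hxr ▸ mem_range_self j)
  obtain ⟨u', r1, r2, r3, r4, r5⟩ := hreal n (fun j => (x j).1) (fun j => (x j).2)
    (fun j => hFt (hxF j))
  have hrep : ∀ s' : Set (Om Y), s' ⊆ s1 ∪ s2 ∪ s3 → ∀ z ∈ gen s', ∃ j, x j ∈ s' ∧
      ∃ (m : SimplexCategoryᵒᵖ) (φ : (x j).1 ⟶ m), z = ⟨m, Y.map φ (x j).2⟩ := by
    rintro s' hs' z ⟨w, hw, m, φ, rfl⟩
    obtain ⟨j, rfl⟩ := (hxr.symm ▸ hs' hw : w ∈ range x)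
    exact ⟨j, hw, m, φ, rfl⟩
  let K' : Set (Om Y) := gen (range fun j => (⟨_, u' j⟩ : Om Y))
  have hK' : Fn K' := fn_gen (finite_range _)
  have hK'W : K' ⊆ s ∪ W := gen_subset hN (by rintro _ ⟨j, rfl⟩; exact r1 j)
  have hK'm : ∀ j m (φ : (x j).1 ⟶ m), (⟨m, Y.map φ (u' j)⟩ : Om Y) ∈ K' :=
    fun j m φ => ⟨_, ⟨j, rfl⟩, m, φ, rfl⟩
  have hK'' : Fn (K' ∪ F ∩ (s ∪ W)) := hK'.union (hF.inter hN)
  obtain ⟨L', g1, g2, g3, g4⟩ := h.2.2.2 (F ∪ (K' ∪ F ∩ (s ∪ W))) (hF.union hK'')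
    (union_subset hFt (union_subset (hK'W.trans hNt) (inter_subset_left.trans hFt)))
  have hL : Fn (L' ∪ (K' ∪ F ∩ (s ∪ W))) := g1.union hK''
  have hLN : L' ∪ (K' ∪ F ∩ (s ∪ W)) ⊆ s ∪ W := union_subset (g2.trans subset_union_left)
    (union_subset hK'W inter_subset_right)
  refine ⟨_, hL, hLN, subset_union_right.trans subset_union_right, fun i e he => ?_⟩
  obtain ⟨y, hy, hye⟩ := g4 i e (he.mono subset_union_left)
  have hT0 := tri_s0 (he.mono (subset_union_left (t := K' ∪ F ∩ (s ∪ W))))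
  obtain ⟨τ', z, hτ', hz, hz0⟩ := tri2 hX g1.cl hL.cl subset_union_left
    (hy.mono (union_subset_union_right _ subset_union_right)) he
    (show Tri X0 L' _ triv y e from ⟨hT0.1, hT0.2.1, hT0.2.2.1.trans hye.symm, hT0.2.2.2⟩)
  let zr : Cell Y (E i) 1 := fun w =>
    if h : ∃ p : Σ j, ((x j).1 ⟶ w.1), Y.map p.2 (x p.1).2 = w.2 then
      z ⟨w.1, Y.map h.choose.2 (u' h.choose.1)⟩ else triv w
  have hzr : ∀ j m (φ : (x j).1 ⟶ m), zr ⟨m, Y.map φ (x j).2⟩ = z ⟨m, Y.map φ (u' j)⟩ := by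
    intro j m φ
    have hex : ∃ p : Σ j, ((x j).1 ⟶ m), Y.map p.2 (x p.1).2 = Y.map φ (x j).2 := ⟨⟨j, φ⟩, rfl⟩
    have := r5 _ _ m _ _ hex.choose_spec
    simp only [zr]
    rw [dif_pos hex, this]
  have hKL : K' ⊆ L' ∪ (K' ∪ F ∩ (s ∪ W)) := subset_union_left.trans subset_union_right
  have hF1 : ∀ w ∈ F, ∃ j, ∃ (m : SimplexCategoryᵒᵖ) (φ : (x j).1 ⟶ m),
      w = ⟨m, Y.map φ (x j).2⟩ := by
    intro w hw
    obtain ⟨j, -, h'⟩ := hrep s1 (subset_union_left.trans subset_union_left) w (e1 ▸ hw)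
    exact ⟨j, h'⟩
  have hEz : Edge X0 F zr triv triv := by
    refine ⟨⟨fun w hw m' ψ t => ?_, fun w hw => ?_⟩, fun w hw => ?_, fun w hw => ?_⟩
    · obtain ⟨j, m, φ, rfl⟩ := hF1 w hw
      have h1 := hz.1.1 _ (hKL (hK'm j m φ)) m' ψ t
      rw [hzr j m φ, ← h1]
      dsimp only
      rw [← Functor.map_comp_apply, ← Functor.map_comp_apply, hzr j m' (φ ≫ ψ)]
    · by_cases hex : ∃ p : Σ j, ((x j).1 ⟶ w.1), Y.map p.2 (x p.1).2 = w.2
      · obtain ⟨p, hp⟩ := hex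
        have hwF : w ∈ F := by
          have := hF.cl _ (hxF p.1) _ p.2
          rwa [hp] at this
        obtain ⟨j, hj, m, φ, rfl⟩ := hrep s3 subset_union_right w (e3 ▸ ⟨hwF, hw⟩)
        rw [hzr]
        have hj0 : x j ∈ X0 := (e3.symm ▸ subset_gen s3 hj : x j ∈ F ∩ X0).2
        exact hz.1.2 _ (hX _ (r4 j hj0) m φ)
      · exact dif_neg hex
    · obtain ⟨j, m, φ, rfl⟩ := hF1 w hw
      funext t
      have := congrFun (hz.2.1 _ (hKL (hK'm j m φ))) t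
      simp only [pull] at this ⊢
      rw [hzr]
      exact this
    · obtain ⟨j, m, φ, rfl⟩ := hF1 w hw
      funext t
      have := congrFun (hz.2.2 _ (hKL (hK'm j m φ))) t
      simp only [pull] at this ⊢
      rw [hzr]
      exact this
  have hag : Agree ((L' ∪ (K' ∪ F ∩ (s ∪ W))) ∩ F) z zr := by
    intro w hw
    obtain ⟨j, hj, m, φ, rfl⟩ := hrep s2 (subset_union_right.trans subset_union_left) w
      (e2 ▸ ⟨hw.2, hLN hw.1⟩)
    rw [hzr]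
    rcases (e2.symm ▸ subset_gen s2 hj : x j ∈ F ∩ (s ∪ W)).2 with hj' | hj'
    · rw [hz0 _ (g3 ⟨Or.inl hw.2, h.1 _ hj' m φ⟩),
        hz0 _ (g3 ⟨Or.inr (Or.inl (hK'm j m φ)), h.1 _ (r3 j hj') m φ⟩)]
      rfl
    · rw [r2 j hj']
  obtain ⟨_, c, -, hc, hce⟩ := tri1 hX hL.cl (hL.cl.union hF.cl) subset_union_left
    (hz.glue hL.cl hF.cl hEz hag) (hy.mono (by
      rintro w ((hw | hw) | hw)
      · exact Or.inl hw
      · exact Or.inr (Or.inr hw)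
      · exact Or.inr (Or.inl hw)))
    (show Tri X0 _ τ' _ y e from ⟨hτ'.1, hτ'.2.1.trans (glue_left _ _ _).symm, hτ'.2.2⟩)
  exact ⟨c, hc, hce⟩

/-- A projection together with an operation that replaces the projected coordinate. -/
structure Fib (P Y : SSet.{0}) where
  p : P ⟶ Y
  ρ : ∀ m, P.obj m → Y.obj m → P.obj m
  nat : ∀ {m m'} (φ : m ⟶ m') x y, P.map φ (ρ m x y) = ρ m' (P.map φ x) (Y.map φ y)
  p_ρ : ∀ m x y, p.app m (ρ m x y) = y
  ρ_p : ∀ m x, ρ m x (p.app m x) = x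

/-- The first coordinate. -/
noncomputable def fib1 (Y Z : SSet.{0}) : Fib (Y ⊗ Z) Y :=
  ⟨CartesianMonoidalCategory.fst Y Z, fun _ x y => pr y x.2, fun _ _ _ => rfl, fun _ _ _ => rfl,
    fun _ _ => rfl⟩

/-- The second coordinate. -/
noncomputable def fib2 (Y Z : SSet.{0}) : Fib (Y ⊗ Z) Z :=
  ⟨CartesianMonoidalCategory.snd Y Z, fun _ x y => pr x.1 y, fun _ _ _ => rfl, fun _ _ _ => rfl,
    fun _ _ => rfl⟩

/-- Closed sets that do not depend on the projected coordinate. -/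
def Fib.Inv (T : Fib P Y) (U : Set (Om P)) : Prop :=
  Cl U ∧ ∀ m x y, (⟨m, x⟩ : Om P) ∈ U → (⟨m, T.ρ m x y⟩ : Om P) ∈ U

variable (E : OmegaSpectrum)

/-- Purity with parameters. -/
def PuP (L N : Set (Om Y)) : Prop :=
  Cl N ∧ L ⊆ N ∧ ∀ (P : SSet.{0}) (T : Fib P Y) (U V : Set (Om P)), T.Inv U → T.Inv V →
    Pu (pre T.p L ∪ U) E.E (pre T.p N ∩ V ∪ (pre T.p L ∪ U)) (V ∪ (pre T.p L ∪ U))

theorem pup_base {L : Set (Om Y)} (hL : Cl L) : PuP E L L := by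
  refine ⟨hL, subset_rfl, fun P T U V hU hV => ?_⟩
  have hX := (cl_pre T.p hL).union hU.1
  rw [union_eq_self_of_subset_left (inter_subset_left.trans subset_union_left)]
  exact ⟨hX, hV.1.union hX, subset_union_right, fun F hF _ => ⟨_, hF.inter hX, inter_subset_right,
    subset_rfl, fun n e he => ⟨triv, edge_triv _, he.1.2.symm.mono inter_subset_right⟩⟩⟩

theorem pup_dir {L : Set (Om Y)} {J : Type} [Nonempty J] (N : J → Set (Om Y))
    (h : ∀ i, PuP E L (N i)) (hd : Directed (· ⊆ ·) N) : PuP E L (⋃ i, N i) := by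
  refine ⟨Cl.iUnion fun i => (h i).1, (h (Classical.arbitrary J)).2.1.trans (subset_iUnion _ _),
    fun P T U V hU hV => ?_⟩
  have e : pre T.p (⋃ i, N i) = ⋃ i, pre T.p (N i) := Set.ext fun x => by simp [pre]
  rw [e, iUnion_inter, iUnion_union]
  exact pu_dir _ (fun i => (h i).2.2 P T U V hU hV) fun i j => (hd i j).imp fun _ h =>
    ⟨union_subset_union_left _ (inter_subset_inter_left _ fun _ hx => h.1 hx),
      union_subset_union_left _ (inter_subset_inter_left _ fun _ hx => h.2 hx)⟩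

theorem pup_hull {L N : Set (Om Y)} (hL : Cl L) (h : PuP E L N) (y : Om Y) :
    ∃ W, Cl W ∧ y ∈ W ∧ #W ≤ ℵ₀ ∧ PuP E L (N ∪ W) := by
  obtain ⟨W, h1, -, hW, h2, hreal⟩ := exists_W L N Set.univ {y} cl_univ (subset_univ _)
  refine ⟨W, hW, h1 rfl, by simpa using h2, h.1.union hW, h.2.1.trans subset_union_left,
    fun P T U V hU hV => ?_⟩
  have e : pre T.p (N ∪ W) ∩ V ∪ (pre T.p L ∪ U) =
      (pre T.p N ∩ V ∪ (pre T.p L ∪ U)) ∪ pre T.p W ∩ V := by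
    rw [union_right_comm, ← union_inter_distrib_right]
    rfl
  rw [e]
  refine pu_hull ((cl_pre T.p hL).union hU.1) (h.2.2 P T U V hU hV) ((cl_pre T.p hW).inter hV.1)
    (inter_subset_right.trans subset_union_left) fun n d u hu => ?_
  obtain ⟨u', r1, r2, r3, r4, r5⟩ := hreal n d (fun j => T.p.app _ (u j)) fun _ => trivial
  have hp : ∀ {j} {S : Set (Om Y)}, (⟨_, u' j⟩ : Om Y) ∈ S →
      (⟨_, T.ρ _ (u j) (u' j)⟩ : Om P) ∈ pre T.p S := fun {j S} h => by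
    change (⟨_, T.p.app _ (T.ρ _ (u j) (u' j))⟩ : Om Y) ∈ S
    rwa [T.p_ρ]
  have hX : ∀ j, (⟨_, u j⟩ : Om P) ∈ pre T.p L ∪ U →
      (⟨_, T.ρ _ (u j) (u' j)⟩ : Om P) ∈ pre T.p L ∪ U := fun j h =>
    h.imp (fun h => hp (r4 j h)) (hU.2 _ _ _)
  refine ⟨fun j => T.ρ _ (u j) (u' j), fun j => (hu j).elim
    (fun h => Or.inr ⟨hp (r1 j), hV.2 _ _ _ h⟩) fun h => Or.inl (Or.inr (hX j h)),
    fun j h => (congrArg _ (r2 j h.1)).trans (T.ρ_p _ _),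
    fun j h => h.imp (fun h => ⟨hp (r3 j h.1), hV.2 _ _ _ h.2⟩) (hX j), hX,
    fun j l m φ ψ h => ?_⟩
  rw [T.nat, T.nat, h, r5 j l m φ ψ (by
    rw [← NatTrans.naturality_apply T.p φ, ← NatTrans.naturality_apply T.p ψ, h])]

/-- Exchange of the factors, followed by a map. -/
def swp {B : SSet.{0}} (j : B ⟶ Y) (Z : SSet.{0}) : Z ⊗ B ⟶ Y ⊗ Z where
  app m := ↾fun x => pr (j.app m x.2) x.1
  naturality _ _ φ := by
    ext x
    exact Prod.ext (NatTrans.naturality_apply j φ x.2 :) rfl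

instance {B : SSet.{0}} (j : B ⟶ Y) [Mono j] (Z : SSet.{0}) : Mono (swp j Z) :=
  mono_of_inj _ fun m _ _ h => Prod.ext (congrArg Prod.snd h :)
    (inj_of_mono j m (congrArg Prod.fst h :))

theorem acy_swp {K : PKan} {L N : Set (Om Y)} {A : Set (Om Z)} (hL : Cl L) (hN : Cl N) (hA : Cl A)
    (h : Acy K (bx A (pre (toSub N hN).ι L)) Set.univ) : Acy K (bx L A) (bx N A) := by
  refine (acy_iff (swp (toSub N hN).ι Z) (cl_bx hL hA) fun x hx => hx.elim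
    (fun h => Or.inl (Or.inl h)) fun h => Or.inr ⟨pr x.2.2 ⟨x.2.1, h⟩, rfl⟩).1 fun g hg => ?_
  obtain ⟨H, hH⟩ := h g ⟨hg.1.mono fun x _ => Or.inr x.2.2.2, hg.2.mono fun x hx => Or.symm hx⟩
  exact ⟨H, ⟨hH.1.1.mono (subset_univ _), hH.1.2.mono fun x hx => Or.symm hx⟩,
    hH.2.1.mono (subset_univ _), hH.2.2.mono (subset_univ _)⟩

theorem smash {L N : Set (Om Y)} {L' N' : Set (Om Z)} (hL : Cl L) (hL' : Cl L')
    (h : ∀ n, Acy (E.E n) L Set.univ) (h' : ∀ n, Acy (E.E n) L' Set.univ)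
    (hN : PuP E L N) (hN' : PuP E L' N') (n : ℤ) :
    Acy (E.E n) (bx L L') (bx N ∅ ∩ bx ∅ N' ∪ bx L L') := by
  have hX := cl_bx hL hL'
  have hX' := cl_bx hL hN'.1
  have h0 : Cl (bx N ∅ ∩ bx ∅ N' ∪ bx L L') :=
    ((cl_bx hN.1 cl_empty).inter (cl_bx cl_empty hN'.1)).union hX
  have h1 := cl_bx hN.1 hL'
  have h01 : bx N ∅ ∩ bx ∅ N' ∪ bx L L' ⊆ bx N L' :=
    union_subset (inter_subset_left.trans (bx_mono subset_rfl (empty_subset _)))
      (bx_mono hN.2.1 subset_rfl)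
  have h0X : bx N ∅ ∩ bx ∅ N' ∪ bx L L' ⊆ bx L N' :=
    union_subset (inter_subset_right.trans (bx_mono (empty_subset _) subset_rfl))
      (bx_mono subset_rfl hN'.2.1)
  have hi : bx L N' ∩ bx N L' ⊆ bx N ∅ ∩ bx ∅ N' ∪ bx L L' := by
    rintro x ⟨a | a, b | b⟩
    exacts [Or.inr (Or.inl b), Or.inl ⟨Or.inr b, Or.inl a⟩, Or.inr (Or.inl b), Or.inr (Or.inr a)]
  have ha : ∀ n, Acy (E.E n) (bx L L') (bx N L') := fun n =>
    acy_swp hL hN.1 hL' (prodA E hL' (cl_pre _ hL) h' n)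
  have p1 : Pu (bx L L') E.E (bx N ∅ ∩ bx ∅ N' ∪ bx L L') (bx N L') := by
    convert hN'.2.2 _ (fib2 Y Z) (pre (fib1 Y Z).p L) (pre (fib1 Y Z).p N)
      ⟨cl_pre _ hL, fun _ _ _ h => h⟩ ⟨cl_pre _ hN.1, fun _ _ _ h => h⟩ using 1
    · rfl
    · exact Set.ext fun x => or_congr_left (and_comm.trans
        (and_congr (or_iff_left id) (or_iff_right id)))
    · exact Set.ext fun x => ⟨fun h => h.elim (fun h => Or.inr (Or.inl h)) Or.inl,
        fun h => h.elim Or.inr fun h => h.imp id fun h => hN.2.1 h⟩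
  have p2 : Pu (bx L N') E.E (bx L N' ∪ bx N L') Set.univ := by
    convert hN.2.2 _ (fib1 Y Z) (pre (fib2 Y Z).p N') Set.univ
      ⟨cl_pre _ hN'.1, fun _ _ _ h => h⟩ ⟨cl_univ, fun _ _ _ h => h⟩ using 1
    · exact Set.ext fun x => or_comm
    · exact Set.ext fun x => ⟨fun h => h.elim (fun h => Or.inr h.symm) fun h => h.elim
        (fun h => Or.inr (Or.inr (hN'.2.1 h))) fun h => Or.inl ⟨h, trivial⟩,
        fun h => h.elim (fun h => Or.inr (Or.inr h.1)) fun h => Or.inl h.symm⟩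
    · exact (univ_union _).symm
  have key : ∀ n, Acy (E.E n) (bx N ∅ ∩ bx ∅ N' ∪ bx L L') (bx N L') := by
    intro n g hg
    have hg' := hg.weaken (subset_union_right (s := bx N ∅ ∩ bx ∅ N'))
    have hag : Agree (bx L N' ∩ bx N L') triv g := hg.2.symm.mono hi
    obtain ⟨H0, hH0⟩ := ha n g hg'
    have hph : Ph (bx L N') (bx L N' ∪ bx N L') (glue (bx L N') triv g) := by
      refine ⟨⟨((pm_triv _).glue hX' h1 hg' hag).1, glue_left _ _ _⟩, fun F hF hF' => ?_⟩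
      obtain ⟨H, hH, hH'⟩ := p1.rel hX ⟨hg', fun F _ h => ⟨H0, hH0.mono h⟩⟩ hg.2 (hF.inter h1)
        inter_subset_right
      have := ((edge_triv (bx L N')).congr (glue_left (bx L N') triv g).symm
        (Agree.refl _ _)).glue hX' (hF.cl.inter h1)
        (hH.congr ((glue_right hag).symm.mono inter_subset_right) (Agree.refl _ _))
        (hH'.symm.mono fun x hx => ⟨hx.2, hi ⟨hx.1, hx.2.2⟩⟩)
      have := this.mono (show F ⊆ _ from fun x hx => (hF' hx).imp id fun h => ⟨hx, h⟩)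
      exact ⟨_, ⟨this.1.1, glue_left _ _ _⟩, this.2⟩
    obtain ⟨g', hg1, hg2⟩ := p2.ext hX' hph
    obtain ⟨H, hH⟩ := prodA E hL hN'.1 h n g' hg1.1
    exact ⟨H, ((hH.weaken h0X).mono (subset_univ _)).congr
      ((hg2.mono subset_union_right).trans (glue_right hag)) (Agree.refl _ _)⟩
  intro g hg
  obtain ⟨g', hg1, hg2⟩ := ext_of_acy E hX h0 h1 subset_union_right h01 key n g hg
  obtain ⟨H, hH⟩ := ha n g' hg1
  exact ⟨H, (hH.mono h01).congr hg2 (Agree.refl _ _)⟩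

end Pool.Agent.MP_e99f36_lc.H88
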